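import Pool.Agent.Helper22.SC.Conv
import Pool.Agent.Helper22.SC.Ops3
import Pool.Agent.Helper66.SC.Levy

universe u

namespace Pool.Agent.Helper61.SC

open ZFSet
open Pool.Agent.Helper66.SC
open Pool.Agent.Helper22.SC (ZCls URel U Ctx In coll_of_urel repl_of_urel in_zfset in_prod in_fin
  subset_tc tc_isTransitive tc_subset mem_dom ud_iff)

variable {M A : Set ZFSet.{u}}

theorem oz_mem (hM : IsZF M A) {c e : Ordinal.{u}} (h : c ≤ e) (he : oz e ∈ M) : oz c ∈ M := by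
  rcases h.lt_or_eq with h | rfl
  · exact hM.trans _ he _ (Ordinal.toZFSet_mem_toZFSet_iff.2 h)
  · exact he

theorem oz_sub {c e : Ordinal.{u}} (h : c ≤ e) : oz c ⊆ oz e :=
  Ordinal.toZFSet_subset_toZFSet_iff.2 h

/-- the source of an injection in `M` is in `M` -/
theorem left_mem (hM : IsZF M A) {a b : ZFSet.{u}} (h : CardLe M a b) : a ∈ M := by
  obtain ⟨f, hf, h1, _⟩ := h
  have h2 : Helper22.SC.dom f ∈ M := in_zfset.1 ((U.dom (C := fun M A => IsZF M A)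
    (Helper22.SC.U.id (α := ZFSet.{u}))).closed hM (a := f) (in_zfset.2 hf))
  have h3 : Helper22.SC.dom f = a := by
    ext x
    rw [mem_dom]
    constructor
    · rintro ⟨y, hy⟩
      exact (pair_mem_prod.1 (h1.1 hy)).1
    · intro hx
      obtain ⟨w, hw, _⟩ := h1.2 x hx
      exact ⟨w, hw⟩
  rwa [h3] at h2

theorem nat_lt {o : Ordinal.{u}} (ho : SL M o) (n : ℕ) : (n : Ordinal.{u}) < o :=
  (Ordinal.natCast_lt_omega0 n).trans ho.2.1

/-- the small transitive sets of `M` -/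
def Sm (M : Set ZFSet.{u}) (o : Ordinal.{u}) : Set ZFSet.{u} :=
  {t | t.IsTransitive ∧ ∃ c < o, CardLe M t (oz c)}

section Calc

variable (hK1 : ST_K1.{u}) (hK2 : ST_K2.{u}) (hK3 : ST_K3.{u}) (hK4 : ST_K4.{u})

include hK1

theorem le_of_subset (hM : IsZF M A) {a b : ZFSet.{u}} (ha : a ∈ M) (hb : b ∈ M) (h : a ⊆ b) :
    CardLe M a b := (hK1 M A hM).1 a ha b hb h

theorem le_trans' (hM : IsZF M A) {a b c : ZFSet.{u}} (hc : c ∈ M)
    (h1 : CardLe M a b) (h2 : CardLe M b c) : CardLe M a c :=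
  (hK1 M A hM).2.1 a (left_mem hM h1) b (left_mem hM h2) c hc h1 h2

theorem le_oz (hM : IsZF M A) {a : ZFSet.{u}} {c e : Ordinal.{u}} (h : CardLe M a (oz c))
    (hce : c ≤ e) (he : oz e ∈ M) : CardLe M a (oz e) :=
  le_trans' hK1 hM he h (le_of_subset hK1 hM (oz_mem hM hce he) he (oz_sub hce))

theorem not_oz_le (hM : IsZF M A) {o : Ordinal.{u}} (ho : SL M o) {c : Ordinal.{u}} (hc : c < o) :
    ¬ CardLe M (oz o) (oz c) := by
  intro h
  obtain ⟨c', hc', h2⟩ := ho.2.2.2.1 c hc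
  have hcM := oz_mem hM hc.le ho.1
  have h3 := le_oz hK1 hM h2 hc'.le ho.1
  exact (hK1 M A hM).2.2.2.2 (oz c) hcM (le_trans' hK1 hM hcM h3 h)

/-- sets of small transitive sets are in `H` -/
theorem mem_H (hM : IsZF M A) {o : Ordinal.{u}} (ho : SL M o) {t : ZFSet.{u}}
    {c : Ordinal.{u}} (hc : c < o) (ht : CardLe M t (oz c)) {x : ZFSet.{u}} (hx : x ∈ M)
    (hxt : tc x ⊆ t) : x ∈ Hset M (oz o) := by
  refine ⟨hx, fun h => not_oz_le hK1 hM ho hc ?_⟩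
  have htM := left_mem hM ht
  have h1 : CardLe M (tc x) t := le_of_subset hK1 hM (hM.tc_mem hx) htM hxt
  exact le_trans' hK1 hM (oz_mem hM hc.le ho.1) (le_trans' hK1 hM htM h h1) ht

theorem prod_small (hM : IsZF M A) {o : Ordinal.{u}} (ho : SL M o) {s a b : ZFSet.{u}}
    {c e : Ordinal.{u}} (hc : c < o) (he : e < o) (ha : CardLe M a (oz c))
    (hb : CardLe M b (oz e)) (hs : CardLe M s (a.prod b)) : ∃ d < o, CardLe M s (oz d) := by
  obtain ⟨d, hd, h1⟩ := ho.2.2.2.2.1 (max c e) (max_lt hc he)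
  refine ⟨d, hd, ?_⟩
  have hmM : oz (max c e) ∈ M := oz_mem hM (max_lt hc he).le ho.1
  have h2 := (hK1 M A hM).2.2.1 a (left_mem hM ha) b (left_mem hM hb) _ hmM _ hmM
    (le_oz hK1 hM ha (le_max_left _ _) hmM) (le_oz hK1 hM hb (le_max_right _ _) hmM)
  have hdM := oz_mem hM hd.le ho.1
  exact le_trans' hK1 hM hdM (le_trans' hK1 hM (left_mem hM h1) hs h2) h1

theorem sm_sub (hM : IsZF M A) {o : Ordinal.{u}} (ho : SL M o) :
    ∀ t ∈ Sm M o, t.IsTransitive ∧ ∀ x ∈ t, x ∈ Hset M (oz o) := by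
  rintro t ⟨ht1, c, hc, ht2⟩
  refine ⟨ht1, fun x hx => mem_H hK1 hM ho hc ht2 (hM.trans _ (left_mem hM ht2) _ hx) ?_⟩
  exact tc_subset ht1 (ht1.subset_of_mem hx)

include hK3

theorem small_of_mem (hM : IsZF M A) (hW : WO M) {o : Ordinal.{u}} (ho : SL M o)
    {x : ZFSet.{u}} (hx : x ∈ Hset M (oz o)) : ∃ c < o, CardLe M (tc x) (oz c) := by
  obtain ⟨hxM, hx2⟩ := hx
  have htM := hM.tc_mem hxM
  obtain ⟨e, he, h1⟩ := hW (tc x) htM
  obtain ⟨c, hc, h2, h3⟩ := hK3 M A hM (tc x) htM e he h1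
  by_contra hcon
  push Not at hcon
  have hoc : o ≤ c := by
    by_contra hlt
    exact hcon c (not_le.1 hlt) h2
  have hcM := oz_mem hM hc he
  exact hx2 (le_trans' hK1 hM htM (le_of_subset hK1 hM ho.1 hcM (oz_sub hoc)) h3)

include hK2 hK4

theorem pair_le_two (hM : IsZF M A) {s t : ZFSet.{u}} (hs : s ∈ M) (ht : t ∈ M) :
    CardLe M ({s, t} : ZFSet.{u}) (oz 2) := by
  have hωM := hM.omega
  have h2M : oz (2 : Ordinal.{u}) ∈ M := by
    apply hM.trans _ hωM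
    rw [Helper22.SC.omega_eq, Ordinal.toZFSet_mem_toZFSet_iff]
    exact_mod_cast Ordinal.natCast_lt_omega0 2
  have h0M : oz (0 : Ordinal.{u}) ∈ M := oz_mem hM (by simp) h2M
  have h1M : oz (1 : Ordinal.{u}) ∈ M := oz_mem hM (by exact_mod_cast one_le_two) h2M
  have hp1 : pair (oz 0) s ∈ M := hM.pair_mem h0M hs
  have hp2 : pair (oz 1) t ∈ M := hM.pair_mem h1M ht
  refine hK2 M A hM (oz 2) h2M {s, t} (hM.pair _ hs _ ht) {pair (oz 0) s, pair (oz 1) t}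
    (hM.pair _ hp1 _ hp2) 2 h2M (le_of_subset hK1 hM h2M h2M (fun _ h => h)) ?_ ?_
  · intro x y z h1 h2
    rw [ZFSet.mem_pair] at h1 h2
    have h01 : (oz 0 : ZFSet.{u}) ≠ oz 1 := by
      intro h
      exact zero_ne_one (Ordinal.toZFSet_injective h)
    rcases h1 with h1 | h1 <;> rcases h2 with h2 | h2 <;>
      rw [ZFSet.pair_inj] at h1 h2
    · rw [h1.2, h2.2]
    · exact absurd (h1.1.symm.trans h2.1) h01
    · exact absurd (h2.1.symm.trans h1.1) h01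
    · rw [h1.2, h2.2]
  · intro y hy
    rw [ZFSet.mem_pair] at hy
    rcases hy with rfl | rfl
    · exact ⟨oz 0, Ordinal.toZFSet_mem_toZFSet_iff.2 (by exact_mod_cast two_pos),
        ZFSet.mem_pair.2 (Or.inl rfl)⟩
    · exact ⟨oz 1, Ordinal.toZFSet_mem_toZFSet_iff.2 (by exact_mod_cast one_lt_two),
        ZFSet.mem_pair.2 (Or.inr rfl)⟩

theorem union_small (hM : IsZF M A) (hW : WO M) {o : Ordinal.{u}} (ho : SL M o)
    {s t : ZFSet.{u}} {c e : Ordinal.{u}} (hc : c < o) (he : e < o) (hs : CardLe M s (oz c))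
    (ht : CardLe M t (oz e)) : ∃ d < o, CardLe M (s ∪ t) (oz d) := by
  have hsM := left_mem hM hs
  have htM := left_mem hM ht
  have h1 := pair_le_two hK1 hK2 hK3 hK4 hM hsM htM
  have hmM : oz (max c e) ∈ M := oz_mem hM (max_lt hc he).le ho.1
  have h2lt : (2 : Ordinal.{u}) < o := by exact_mod_cast nat_lt ho 2
  have h2M : oz (2 : Ordinal.{u}) ∈ M := oz_mem hM h2lt.le ho.1
  have h2 := hK4 M A hM hW {s, t} (hM.pair _ hsM _ htM) (oz 2) h2M _ hmM h1 (by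
    intro x hx
    rw [ZFSet.mem_pair] at hx
    rcases hx with rfl | rfl
    · exact le_oz hK1 hM hs (le_max_left _ _) hmM
    · exact le_oz hK1 hM ht (le_max_right _ _) hmM)
  have h3 : (⋃₀ ({s, t} : ZFSet.{u}) : ZFSet.{u}) = s ∪ t := ZFSet.sUnion_pair _ _
  rw [h3] at h2
  exact prod_small hK1 hM ho h2lt (max_lt hc he)
    (le_of_subset hK1 hM h2M h2M (fun _ h => h)) (le_of_subset hK1 hM hmM hmM (fun _ h => h)) h2

theorem sm_cover (hM : IsZF M A) (hW : WO M) {o : Ordinal.{u}} (ho : SL M o) :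
    ∀ t ∈ Sm M o, ∀ x ∈ Hset M (oz o), ∃ t' ∈ Sm M o, t ⊆ t' ∧ x ∈ t' := by
  rintro t ⟨ht1, c, hc, ht2⟩ x hx
  obtain ⟨e, he, hx2⟩ := small_of_mem hK1 hK3 hM hW ho hx
  obtain ⟨d, hd, h1⟩ := union_small hK1 hK2 hK3 hK4 hM hW ho hc he ht2 hx2
  have hxM := hx.1
  have h2 : CardLe M ({x, x} : ZFSet.{u}) (oz 2) := pair_le_two hK1 hK2 hK3 hK4 hM hxM hxM
  have h2lt : (2 : Ordinal.{u}) < o := by exact_mod_cast nat_lt ho 2
  obtain ⟨d', hd', h3⟩ := union_small hK1 hK2 hK3 hK4 hM hW ho hd h2lt h1 h2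
  refine ⟨_, ⟨?_, d', hd', h3⟩, ?_, ?_⟩
  · intro z hz y hy
    simp only [ZFSet.mem_union, ZFSet.mem_pair, or_self] at hz ⊢
    rcases hz with (hz | hz) | hz
    · exact Or.inl (Or.inl (ht1.mem_trans hy hz))
    · exact Or.inl (Or.inr ((tc_isTransitive x).mem_trans hy hz))
    · subst hz
      exact Or.inl (Or.inr (subset_tc _ hy))
  · intro z hz
    simp only [ZFSet.mem_union]
    exact Or.inl (Or.inl hz)
  · simp

theorem sm_coverN (hM : IsZF M A) (hW : WO M) {o : Ordinal.{u}} (ho : SL M o) (k : ℕ)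
    (v : Fin k → ZFSet.{u}) (hv : ∀ i, v i ∈ Hset M (oz o)) :
    ∃ t ∈ Sm M o, ∀ i, v i ∈ t := by
  induction k with
  | zero =>
    refine ⟨∅, ⟨ZFSet.isTransitive_empty, 0, ?_, ?_⟩, fun i => i.elim0⟩
    · exact_mod_cast nat_lt ho 0
    · have h0 : (oz 0 : ZFSet.{u}) = ∅ := by simp [oz]
      rw [h0]
      exact le_of_subset hK1 hM hM.empty_mem hM.empty_mem (fun _ h => h)
  | succ k ih =>
    obtain ⟨t, ht, h1⟩ := ih (fun i => v i.succ) (fun i => hv i.succ)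
    obtain ⟨t', ht', h2, h3⟩ := sm_cover hK1 hK2 hK3 hK4 hM hW ho t ht (v 0) (hv 0)
    refine ⟨t', ht', fun i => ?_⟩
    refine Fin.cases ?_ (fun j => ?_) i
    · exact h3
    · exact h2 (h1 j)

end Calc

/-! The relation used in the collection step. -/

section Rel

variable {C : Cls.{u}}

/-- the context is `p, (T, c)` -/
def Rel (k : ℕ) (φ : Fml (k + 2)) (N : Set ZFSet.{u})
    (a : (Fin k → ZFSet.{u}) × (ZFSet.{u} × ZFSet.{u})) (x t : ZFSet.{u}) : Prop :=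
  t.IsTransitive ∧ a.2.1 ⊆ t ∧ CardLe N t a.2.2 ∧
    ∃ y ∈ t, Sat {z | z ∈ t} ∅ φ (Fin.cons x (Fin.cons y a.1))

theorem rel_urel [ZCls C] (k : ℕ) (φ : Fml (k + 2)) :
    URel C (fun N _ (q : (((Fin k → ZFSet.{u}) × (ZFSet.{u} × ZFSet.{u})) × ZFSet.{u}) ×
      ZFSet.{u}) => Rel k φ N q.1.1 q.1.2 q.2) := by
  unfold Rel
  refine URel.and ?_ (URel.and ?_ (URel.and ?_ ?_))
  · apply_rules (transparency := .reducible) (maxDepth := 400) using is_poly
  · apply_rules (transparency := .reducible) (maxDepth := 400) using is_poly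
  · apply_rules (transparency := .reducible) (maxDepth := 400) using is_poly
  · refine URel.bex (R := fun _ _ (q : (((Fin k → ZFSet.{u}) × (ZFSet.{u} × ZFSet.{u})) ×
      ZFSet.{u}) × ZFSet.{u}) y => Sat {z | z ∈ q.2} ∅ φ (Fin.cons q.1.2 (Fin.cons y q.1.1.1)))
      (f := fun _ _ q => q.2) ?_ ?_
    · apply_rules (transparency := .reducible) (maxDepth := 400) using is_poly
    · have h1 := ud_iff.1 (ud_satRel0 C (fun M A h => (ZCls.isZF h).trans) φ)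
      have h2 := h1.comp (f := fun _ _ (q : ((((Fin k → ZFSet.{u}) × (ZFSet.{u} × ZFSet.{u})) ×
        ZFSet.{u}) × ZFSet.{u}) × ZFSet.{u}) =>
          (Fin.cons q.1.2 (Fin.cons q.1.1.2 (Fin.cons q.2 q.1.1.1.1)) :
            Fin (k + 2 + 1) → ZFSet.{u})) (by
        apply_rules (transparency := .reducible) (maxDepth := 400) using is_poly)
      exact h2.congr (fun N A _ q _ => Iff.rfl)

/-- the least witness: the context is `(p, (T, c)), (b, g)` -/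
def Q (k : ℕ) (φ : Fml (k + 2)) (N : Set ZFSet.{u})
    (a : ((Fin k → ZFSet.{u}) × (ZFSet.{u} × ZFSet.{u})) × (ZFSet.{u} × ZFSet.{u}))
    (x t : ZFSet.{u}) : Prop :=
  t ∈ a.2.1 ∧ Rel k φ N a.1 x t ∧ ∀ t' ∈ a.2.1, Rel k φ N a.1 x t' →
    Helper22.SC.app a.2.2 t ⊆ Helper22.SC.app a.2.2 t'

theorem Q_urel [ZCls C] (k : ℕ) (φ : Fml (k + 2)) :
    URel C (fun N _ (q : ((((Fin k → ZFSet.{u}) × (ZFSet.{u} × ZFSet.{u})) ×
      (ZFSet.{u} × ZFSet.{u})) × ZFSet.{u}) × ZFSet.{u}) => Q k φ N q.1.1 q.1.2 q.2) := by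
  unfold Q
  refine URel.and ?_ (URel.and ?_ ?_)
  · apply_rules (transparency := .reducible) (maxDepth := 400) using is_poly
  · exact (rel_urel (C := C) k φ).comp (f := fun _ _ (q : ((((Fin k → ZFSet.{u}) ×
      (ZFSet.{u} × ZFSet.{u})) × (ZFSet.{u} × ZFSet.{u})) × ZFSet.{u}) × ZFSet.{u}) =>
      ((q.1.1.1, q.1.2), q.2)) (by
        apply_rules (transparency := .reducible) (maxDepth := 400) using is_poly)
  · refine URel.ball (R := fun N _ (q : ((((Fin k → ZFSet.{u}) × (ZFSet.{u} × ZFSet.{u})) ×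
      (ZFSet.{u} × ZFSet.{u})) × ZFSet.{u}) × ZFSet.{u}) t' => Rel k φ N q.1.1.1 q.1.2 t' →
        Helper22.SC.app q.1.1.2.2 q.2 ⊆ Helper22.SC.app q.1.1.2.2 t')
      (f := fun _ _ q => q.1.1.2.1) ?_ ?_
    · apply_rules (transparency := .reducible) (maxDepth := 400) using is_poly
    · refine URel.imp ?_ ?_
      · exact (rel_urel (C := C) k φ).comp (f := fun _ _ (q : (((((Fin k → ZFSet.{u}) ×
          (ZFSet.{u} × ZFSet.{u})) × (ZFSet.{u} × ZFSet.{u})) × ZFSet.{u}) × ZFSet.{u}) ×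
            ZFSet.{u}) => ((q.1.1.1.1, q.1.1.2), q.2)) (by
        apply_rules (transparency := .reducible) (maxDepth := 400) using is_poly)
      · apply_rules (transparency := .reducible) (maxDepth := 400) using is_poly

theorem app_mem {a b f x : ZFSet.{u}} (hf : ZFSet.IsFunc a b f) (hx : x ∈ a) :
    pair x (Helper22.SC.app f x) ∈ f ∧ Helper22.SC.app f x ∈ b := by
  obtain ⟨w, hw, hu⟩ := hf.2 x hx
  have h1 : Helper22.SC.app f x = w := Helper22.SC.app_eq hw (fun z hz => hu z hz)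
  rw [h1]
  exact ⟨hw, (pair_mem_prod.1 (hf.1 hw)).2⟩

end Rel

theorem st_G5 (hK1 : ST_K1.{u}) (hK2 : ST_K2.{u}) (hK3 : ST_K3.{u}) (hK4 : ST_K4.{u})
    (hG5a : ST_G5a.{u}) : ST_G5.{u} := by
  intro M hM hW o ho k φ hφ p hp a ha hall
  have hcover := sm_cover hK1 hK2 hK3 hK4 hM hW ho
  have hsub := sm_sub hK1 hM ho
  -- a small transitive set containing the parameters and the elements of `a`
  obtain ⟨T, hT, hT1⟩ := sm_coverN hK1 hK2 hK3 hK4 hM hW ho (k + 1) (Fin.cons a p) (by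
    intro i
    refine Fin.cases ?_ (fun j => ?_) i
    · exact ha
    · exact hp j)
  have haT : a ∈ T := hT1 0
  have hpT : ∀ i, p i ∈ T := fun i => hT1 i.succ
  obtain ⟨hTt, c0, hc0, hTc⟩ := id hT
  have hTM : T ∈ M := left_mem hM hTc
  have haM : a ∈ M := ha.1
  -- the ordinal `μ`
  obtain ⟨μ, hμ0, hμo, hTμ⟩ : ∃ μ : Ordinal.{u}, 0 < μ ∧ μ < o ∧ CardLe M T (oz μ) := by
    have h1 : (1 : Ordinal.{u}) < o := by exact_mod_cast nat_lt ho 1
    have h2 : max c0 1 < o := max_lt hc0 h1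
    exact ⟨max c0 1, lt_of_lt_of_le zero_lt_one (le_max_right _ _), h2,
      le_oz hK1 hM hTc (le_max_left _ _) (oz_mem hM h2.le ho.1)⟩
  have hμM : oz μ ∈ M := oz_mem hM hμo.le ho.1
  obtain ⟨c1, hc1, hFM⟩ := ho.2.2.2.2.2 μ hμo
  have hc1M : oz c1 ∈ M := oz_mem hM hc1.le ho.1
  -- the formula with swapped variables
  let σ : Fin (k + 2) → Fin (k + 2) := Fin.cons 1 (Fin.cons 0 (fun i => i.succ.succ))
  have hswap : ∀ (K : Set ZFSet.{u}) (x y : ZFSet.{u}),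
      Sat K ∅ (φ.rn σ) (Fin.cons y (Fin.cons x p)) ↔ Sat K ∅ φ (Fin.cons x (Fin.cons y p)) := by
    intro K x y
    rw [sat_rn]
    have e : (Fin.cons y (Fin.cons x p) : Fin (k + 2) → ZFSet.{u}) ∘ σ =
        (Fin.cons x (Fin.cons y p) : Fin (k + 2) → ZFSet.{u}) := by
      funext i
      refine Fin.cases ?_ (fun j => ?_) i
      · rfl
      · refine Fin.cases ?_ (fun j => ?_) j
        · rfl
        · rfl
    rw [e]
  -- small witnesses
  have hex : ∀ x ∈ a, ∃ t ∈ M, Rel k φ M (p, (T, oz c1)) x t := by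
    intro x hx
    have hxT : x ∈ T := hTt.mem_trans hx haT
    obtain ⟨y, hy, hs⟩ := hall x hx
    obtain ⟨T1, hT1', hTT1, hyT1⟩ := hcover T hT y hy
    obtain ⟨t, ht, hT1t, hst⟩ := IsSigma.down1 hφ rfl hcover hsub hT1' (v := Fin.cons x
      (Fin.cons y p)) (by
        intro i
        refine Fin.cases ?_ (fun j => ?_) i
        · exact hTT1 hxT
        · refine Fin.cases ?_ (fun j => ?_) j
          · exact hyT1
          · exact hTT1 (hpT j)) hs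
    obtain ⟨htt, c2, hc2, htc⟩ := id ht
    obtain ⟨t', ht'M, ht't, hTt', ⟨y', hy', hs'⟩, s, hsM, hsf, hss⟩ := hG5a M hM hW (k + 1)
      (φ.rn σ) (hφ.rn σ) T hTM hTt μ hμ0 hμM hTμ (Fin.cons x p) (by
        intro i
        refine Fin.cases ?_ (fun j => ?_) i
        · exact hxT
        · exact hpT j) t (left_mem hM htc) htt (fun z hz => hT1t (hTT1 hz)) y
      (hT1t hyT1) ((hswap _ x y).2 hst)
    refine ⟨t', ht'M, ht't, hTt', ?_, y', hy', (hswap _ x y').1 hs'⟩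
    exact hK2 M ∅ hM _ (left_mem hM hFM) t' ht'M s hsM c1 hc1M hFM hsf hss
  -- collection
  have hctx : In M ((p, (T, oz c1)) : (Fin k → ZFSet.{u}) × (ZFSet.{u} × ZFSet.{u})) := by
    simp only [in_prod, in_zfset, in_fin]
    exact ⟨fun i => (hp i).1, hTM, hc1M⟩
  obtain ⟨b0, hb0M, hb0⟩ := coll_of_urel (C := fun M A => IsZF M A) (rel_urel k φ) (A := ∅)
    hM hctx haM hex
  obtain ⟨e, heM, g, hgM, hg, hginj⟩ := hW b0 hb0M
  have hctx2 : In M (((p, (T, oz c1)), (b0, g)) :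
      ((Fin k → ZFSet.{u}) × (ZFSet.{u} × ZFSet.{u})) × (ZFSet.{u} × ZFSet.{u})) := by
    simp only [in_prod, in_zfset, in_fin]
    exact ⟨⟨fun i => (hp i).1, hTM, hc1M⟩, hb0M, hgM⟩
  have huniq : ∀ x ∈ a, ∃! t, t ∈ M ∧ Q k φ M ((p, (T, oz c1)), (b0, g)) x t := by
    intro x hx
    obtain ⟨t0, ht0, hr0⟩ := hb0 x hx
    have hord : ∀ t ∈ b0, ∃ r : Ordinal.{u}, Helper22.SC.app g t = oz r := by
      intro t ht
      obtain ⟨r, _, hr⟩ := Ordinal.mem_toZFSet_iff.1 (app_mem hg ht).2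
      exact ⟨r, hr.symm⟩
    obtain ⟨r0, hr0'⟩ := hord t0 ht0
    obtain ⟨r, ⟨t1, ht1, hr1, hr1'⟩, hmin⟩ :=
      WellFounded.has_min (wellFounded_lt (α := Ordinal.{u})) {r : Ordinal.{u} | ∃ t ∈ b0,
        Rel k φ M (p, (T, oz c1)) x t ∧ Helper22.SC.app g t = oz r} ⟨r0, t0, ht0, hr0, hr0'⟩
    have hQ1 : Q k φ M ((p, (T, oz c1)), (b0, g)) x t1 := by
      refine ⟨ht1, hr1, fun t' ht' hr' => ?_⟩
      obtain ⟨r', hr''⟩ := hord t' ht'
      show Helper22.SC.app g t1 ⊆ Helper22.SC.app g t'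
      rw [hr1', hr'']
      exact oz_sub (not_lt.1 (hmin r' ⟨t', ht', hr', hr''⟩))
    refine ⟨t1, ⟨hM.trans _ hb0M _ ht1, hQ1⟩, ?_⟩
    rintro t ⟨_, hQ⟩
    have h1 : Helper22.SC.app g t ⊆ Helper22.SC.app g t1 := hQ.2.2 t1 ht1 hr1
    have h2 : Helper22.SC.app g t1 ⊆ Helper22.SC.app g t := hQ1.2.2 t hQ.1 hQ.2.1
    have h3 : Helper22.SC.app g t = Helper22.SC.app g t1 := subset_antisymm h1 h2
    have h4 := (app_mem hg hQ.1).1
    change pair t (Helper22.SC.app g t) ∈ g at h4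
    rw [h3] at h4
    exact hginj t hQ.1 t1 ht1 _ h4 (app_mem hg ht1).1
  obtain ⟨s', hs'M, hs'⟩ := repl_of_urel (C := fun M A => IsZF M A) (Q_urel k φ) (A := ∅)
    hM hctx2 haM huniq
  -- the graph of the choice
  have hrel : (ZFSet.sep (fun z => Q k φ M ((p, (T, oz c1)), (b0, g)) (Helper22.SC.pfst z)
      (Helper22.SC.psnd z)) (a.prod s')) ∈ M := by
    have h1 : U (fun M A => IsZF M A) (fun N _ (q : (((Fin k → ZFSet.{u}) × (ZFSet.{u} ×
        ZFSet.{u})) × (ZFSet.{u} × ZFSet.{u})) × ZFSet.{u} × ZFSet.{u}) =>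
        ZFSet.sep ((fun (q : (((Fin k → ZFSet.{u}) × (ZFSet.{u} ×
        ZFSet.{u})) × (ZFSet.{u} × ZFSet.{u})) × ZFSet.{u} × ZFSet.{u}) z =>
          Q k φ N q.1 (Helper22.SC.pfst z) (Helper22.SC.psnd z)) q) (q.2.1.prod q.2.2)) := by
      refine Helper22.SC.U.sep (R := fun N _ (q : (((Fin k → ZFSet.{u}) × (ZFSet.{u} ×
        ZFSet.{u})) × (ZFSet.{u} × ZFSet.{u})) × ZFSet.{u} × ZFSet.{u}) z =>
          Q k φ N q.1 (Helper22.SC.pfst z) (Helper22.SC.psnd z)) ?_ ?_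
      · apply_rules (transparency := .reducible) (maxDepth := 400) using is_poly
      · exact (Q_urel k φ).comp (f := fun _ _ (q : ((((Fin k → ZFSet.{u}) × (ZFSet.{u} ×
          ZFSet.{u})) × (ZFSet.{u} × ZFSet.{u})) × ZFSet.{u} × ZFSet.{u}) × ZFSet.{u}) =>
          ((q.1.1, Helper22.SC.pfst q.2), Helper22.SC.psnd q.2)) (by
            apply_rules (transparency := .reducible) (maxDepth := 400) using is_poly)
    exact in_zfset.1 (h1.closed (A := ∅) hM (a := (((p, (T, oz c1)), (b0, g)), (a, s'))) (by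
      simp only [in_prod, in_zfset, in_fin]
      exact ⟨⟨⟨fun i => (hp i).1, hTM, hc1M⟩, hb0M, hgM⟩, haM, hs'M⟩))
  -- `a` is small
  obtain ⟨c2, hc2, hac⟩ : ∃ c < o, CardLe M a (oz c) :=
    ⟨μ, hμo, le_trans' hK1 hM hμM (le_of_subset hK1 hM haM hTM (hTt.subset_of_mem haT)) hTμ⟩
  have hc2M : oz c2 ∈ M := oz_mem hM hc2.le ho.1
  have hs'c : CardLe M s' (oz c2) := by
    refine hK2 M ∅ hM a haM s' hs'M _ hrel c2 hc2M hac ?_ ?_
    · intro x y z h1 h2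
      rw [ZFSet.mem_sep, pair_mem_prod, Helper22.SC.pfst_pair, Helper22.SC.psnd_pair] at h1 h2
      exact (huniq x h1.1.1).unique ⟨hM.trans _ hs'M _ h1.1.2, h1.2⟩
        ⟨hM.trans _ hs'M _ h2.1.2, h2.2⟩
    · intro y hy
      obtain ⟨_, x, hx, hQ⟩ := (hs' y).1 hy
      refine ⟨x, hx, ?_⟩
      rw [ZFSet.mem_sep, pair_mem_prod, Helper22.SC.pfst_pair, Helper22.SC.psnd_pair]
      exact ⟨⟨hx, hy⟩, hQ⟩
  -- the union
  have hunion := hK4 M ∅ hM hW s' hs'M (oz c2) hc2M (oz c1) hc1M hs'c (by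
    intro t ht
    obtain ⟨_, x, hx, hQ⟩ := (hs' t).1 ht
    exact hQ.2.1.2.2.1)
  obtain ⟨d, hd, hbd⟩ := prod_small hK1 hM ho hc2 hc1
    (le_of_subset hK1 hM hc2M hc2M (fun _ h => h))
    (le_of_subset hK1 hM hc1M hc1M (fun _ h => h)) hunion
  have hbt : (⋃₀ s' : ZFSet.{u}).IsTransitive := by
    intro z hz y hy
    obtain ⟨t, ht, hzt⟩ := ZFSet.mem_sUnion.1 hz
    obtain ⟨_, x, hx, hQ⟩ := (hs' t).1 ht
    exact ZFSet.mem_sUnion.2 ⟨t, ht, hQ.2.1.1.mem_trans hy hzt⟩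
  have hbM : (⋃₀ s' : ZFSet.{u}) ∈ M := hM.sUnion _ hs'M
  refine ⟨⋃₀ s', mem_H hK1 hM ho hd hbd hbM (tc_subset hbt (fun _ h => h)), ?_⟩
  intro x hx
  obtain ⟨t, ⟨htM, hQ⟩, _⟩ := huniq x hx
  have hts' : t ∈ s' := (hs' t).2 ⟨htM, x, hx, hQ⟩
  obtain ⟨htt, hTt', htc, y, hy, hsat⟩ := hQ.2.1
  refine ⟨y, ZFSet.mem_sUnion.2 ⟨t, hts', hy⟩, ?_⟩
  have hsm : t ∈ Sm M o := ⟨htt, c1, hc1, htc⟩
  refine IsSigma.up1 hφ rfl (H := {z | z ∈ t}) (fun x hx y hy => htt.mem_trans hy hx)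
    (fun z hz => (hsub t hsm).2 z hz) ?_ hsat
  intro i
  refine Fin.cases ?_ (fun j => ?_) i
  · exact hTt' (hTt.mem_trans hx haT)
  · refine Fin.cases ?_ (fun j => ?_) j
    · exact hy
    · exact hTt' (hpT j)

end Pool.Agent.Helper61.SC
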