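import Pool.Agent.Helper61.SC.G5b
import Pool.Agent.Helper66.SC.Defs2

universe u

namespace Pool.Agent.Helper61.SC

open ZFSet
open Pool.Agent.Helper66.SC
open Pool.Agent.Helper22.SC (subset_tc tc_isTransitive tc_subset)

theorem sm_mono {M : Set ZFSet.{u}} {o o' : Ordinal.{u}} (h : o ≤ o') {t : ZFSet.{u}}
    (ht : t ∈ Sm M o) : t ∈ Sm M o' := by
  obtain ⟨h1, c, hc, h2⟩ := ht
  exact ⟨h1, c, hc.trans_le h, h2⟩

theorem st_G6 (hK1 : ST_K1.{u}) (hK2 : ST_K2.{u}) (hK3 : ST_K3.{u}) (hK4 : ST_K4.{u})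
    (hG5a : ST_G5a.{u}) : ST_G6.{u} := by
  intro M hM hW o o' ho ho' hoo
  have hemp : (∅ : ZFSet.{u}) ∈ Hset M (oz o) := by
    have h0 : (0 : Ordinal.{u}) < o := by exact_mod_cast nat_lt ho 0
    have hz : (oz 0 : ZFSet.{u}) = ∅ := by simp [oz]
    have h1 : CardLe M (∅ : ZFSet.{u}) (oz 0) := by
      rw [hz]
      exact le_of_subset hK1 hM hM.empty_mem hM.empty_mem (fun _ h => h)
    exact mem_H hK1 hM ho h0 h1 hM.empty_mem
      (tc_subset ZFSet.isTransitive_empty (fun _ h => h))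
  have hHt : ∀ x ∈ Hset M (oz o), ∀ y ∈ x, y ∈ Hset M (oz o) := by
    intro x hx y hy
    obtain ⟨c, hc, h1⟩ := small_of_mem hK1 hK3 hM hW ho hx
    refine mem_H hK1 hM ho hc h1 (hM.trans _ hx.1 _ hy) ?_
    exact tc_subset (tc_isTransitive x) ((tc_isTransitive x).subset_of_mem (subset_tc x hy))
  have hHK : Hset M (oz o) ⊆ Hset M (oz o') := by
    rintro x ⟨hxM, hx⟩
    refine ⟨hxM, fun h => hx ?_⟩
    exact le_trans' hK1 hM (hM.tc_mem hxM)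
      (le_of_subset hK1 hM ho.1 ho'.1 (oz_sub hoo)) h
  refine ⟨hHK, ?_⟩
  intro k φ hφ v hv
  constructor
  · exact IsSigma.up1 hφ rfl hHt hHK hv
  · intro hs
    obtain ⟨T, hT, hT1⟩ := sm_coverN hK1 hK2 hK3 hK4 hM hW ho (k + 1) (Fin.cons ∅ v) (by
      intro i
      refine Fin.cases ?_ (fun j => ?_) i
      · exact hemp
      · exact hv j)
    have hvT : ∀ i, v i ∈ T := fun i => hT1 i.succ
    have h0T : (∅ : ZFSet.{u}) ∈ T := hT1 0
    obtain ⟨hTt, c0, hc0, hTc⟩ := id hT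
    have hTM : T ∈ M := left_mem hM hTc
    obtain ⟨μ, hμ0, hμo, hTμ⟩ : ∃ μ : Ordinal.{u}, 0 < μ ∧ μ < o ∧ CardLe M T (oz μ) := by
      have h1 : (1 : Ordinal.{u}) < o := by exact_mod_cast nat_lt ho 1
      have h2 : max c0 1 < o := max_lt hc0 h1
      exact ⟨max c0 1, lt_of_lt_of_le zero_lt_one (le_max_right _ _), h2,
        le_oz hK1 hM hTc (le_max_left _ _) (oz_mem hM h2.le ho.1)⟩
    have hμM : oz μ ∈ M := oz_mem hM hμo.le ho.1
    obtain ⟨c1, hc1, hFM⟩ := ho.2.2.2.2.2 μ hμo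
    have hc1M : oz c1 ∈ M := oz_mem hM hc1.le ho.1
    obtain ⟨t, ht, hTt', hst⟩ := IsSigma.down1 hφ rfl
      (sm_cover hK1 hK2 hK3 hK4 hM hW ho') (sm_sub hK1 hM ho') (sm_mono hoo hT) hvT hs
    obtain ⟨htt, c2, hc2, htc⟩ := id ht
    have hren : ∀ (K : Set ZFSet.{u}) (y : ZFSet.{u}),
        Sat K ∅ (φ.rn Fin.succ) (Fin.cons y v) ↔ Sat K ∅ φ v := by
      intro K y
      rw [sat_rn]
      exact Iff.rfl
    obtain ⟨t', ht'M, ht't, hTt'', ⟨y', hy', hs'⟩, s, hsM, hsf, hss⟩ := hG5a M hM hW k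
      (φ.rn Fin.succ) (hφ.rn Fin.succ) T hTM hTt μ hμ0 hμM hTμ v hvT t (left_mem hM htc) htt
      hTt' ∅ (hTt' h0T) ((hren _ ∅).2 hst)
    have ht'c : CardLe M t' (oz c1) :=
      hK2 M ∅ hM _ (left_mem hM hFM) t' ht'M s hsM c1 hc1M hFM hsf hss
    have hsm : t' ∈ Sm M o := ⟨ht't, c1, hc1, ht'c⟩
    exact IsSigma.up1 hφ rfl (H := {z | z ∈ t'}) (fun x hx y hy => ht't.mem_trans hy hx)
      (fun z hz => (sm_sub hK1 hM ho t' hsm).2 z hz) (fun i => hTt'' (hvT i))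
      ((hren _ y').1 hs')

end Pool.Agent.Helper61.SC
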